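import Mathlib
import Pool.Agent.H13.ETF.Local3
import Pool.Agent.H68.SicA
import Pool.Agent.H81.SicDens

set_option autoImplicit false

/-!
# The local degrees of the field of the triple products of a maximal equiangular tight frame

Let `x` be a maximal ETF in `ℂ^d`, `d ≥ 3`, let `K` be a subfield of `ℂ` which contains all triple
products `⟨x_i,x_j⟩⟨x_j,x_k⟩⟨x_k,x_i⟩`, and `F = K ∩ ℝ`.

Let `badPrimes d` be the set of the primes with an odd exponent in `d + 1`, if `d` is even, in `d`,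
if `d ≡ 1 mod 4`, and of the primes which are not a norm from `ℚ(√-2)` (`5` or `7` modulo `8`),
resp. `ℚ(√2)` (`3` or `5` modulo `8`), and have an odd exponent in `d`, if `d ≡ 3 mod 8`,
resp. `d ≡ 7 mod 8`.

* For all `d` outside a set of density `0` there is such a prime `p`.
* `F` has no embedding in an extension of odd degree of `ℚ_p`, for all such `p`. If `F` is a number
  field, then the local degree `e(P) f(P)` is even for all prime ideals `P` of `F` over `p`, and
  `e(P)` is even, if `d` is not `3` modulo `4`. So `F` has even or infinite degree over `ℚ`.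
* More generally let `φ : F → L` be an embedding in a field, and `k` a field over which `L` has finite
  odd degree, for example `k = L = F`, or `k = ℚ_p` and `L` a completion of `F`. Then
  `d = a² + 2b²` in `k` if `d ≡ 3 mod 8`, `d = a² - 2b²` in `k` if `d ≡ 7 mod 8`,
  `ρ² = a² + b²` in `k` if `d ≡ 5 mod 8`, `iρ ∈ K`, `ρ` real and not `0`, and `φ(ρ²)` is in `k`,
  `d` is a square in `k` if `d ≡ 1 mod 4`, and `d + 1` is a square in `k` if `4 ∣ d`.

Proof. The trace form of the Hermitian operators defined over `K` is computed in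
the basis of the projections and in an orthogonal basis of the `K`-span of the vectors. The
comparison gives an isometry between `(d² - d - 1)⟨1⟩ ⊥ ⟨d⟩` and `⟨1, δ⟩ ⊗ g` over `F`, where
`K = F(√-δ)` and `g` is a diagonal form with discriminant `2^{d(d-1)/2} D^{d-1}`, and Jacobson's
theorem determines the discriminant of `g` modulo norms from `K`. If `L` has odd degree over `k`,
taking norms turns the conditions in `L` into conditions in `k`. If `d ≡ 2 mod 4`, then
`K = F(√-(d+1))` is unramified over `F` at all finite places, so `d + 1` has even valuation.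
-/

namespace Pool.Agent.Results.MP_d0f9e0_co.DegreeOfRealSubfield

open Filter Topology Module NumberField

/-- `x` is a maximal ETF: `d²` unit vectors of `ℂ^d` with `|⟨x_i, x_j⟩| = 1/√(d+1)` for `i ≠ j`. -/
def IsMaximalETF (d : ℕ) (x : Fin (d ^ 2) → EuclideanSpace ℂ (Fin d)) : Prop :=
  (∀ i, ‖x i‖ = 1) ∧ ∀ i j, i ≠ j → ‖inner ℂ (x i) (x j)‖ = 1 / Real.sqrt ((d : ℝ) + 1)

/-- `K` contains the triple products of `x`. -/
def HasTripleProducts {d : ℕ} (K : Subfield ℂ) (x : Fin (d ^ 2) → EuclideanSpace ℂ (Fin d)) : Prop :=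
  ∀ i j k, inner ℂ (x i) (x j) * inner ℂ (x j) (x k) * inner ℂ (x k) (x i) ∈ K

/-- the real subfield `K ∩ ℝ`. -/
noncomputable abbrev realSubfield (K : Subfield ℂ) : Subfield ℝ := K.comap Complex.ofRealHom

/-- The primes at which the local degrees of the real subfield are even. -/
def badPrimes (d : ℕ) : Set ℕ :=
  {p | p.Prime ∧ ((d % 2 = 0 ∧ Odd ((d + 1).factorization p)) ∨
    (d % 4 = 1 ∧ Odd (d.factorization p)) ∨
    (d % 8 = 3 ∧ Odd (d.factorization p) ∧ (p % 8 = 5 ∨ p % 8 = 7)) ∨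
    (d % 8 = 7 ∧ Odd (d.factorization p) ∧ (p % 8 = 3 ∨ p % 8 = 5)))}

/-- an odd extension does not change the squares. -/
theorem sq_of_odd {k F : Type*} [Field k] [Field F] [CharZero k] [Algebra k F] [FiniteDimensional k F]
    (hodd : Odd (Module.finrank k F)) {m : ℕ} (h : IsSquare (m : F)) : IsSquare (m : k) := by
  obtain ⟨f, hf⟩ := h
  by_cases hm : m = 0
  · subst hm; exact ⟨0, by simp⟩
  have hm0 : (m : k) ≠ 0 := by exact_mod_cast hm
  obtain ⟨u, v, huv⟩ := Pool.Agent.H13.OddDeg.odd_norm hodd (0 : k) (m : k) hm0 f 0 (by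
    rw [map_natCast, hf]; simp [sq])
  exact ⟨u, by rw [huv]; ring⟩

theorem sq_of_even {m : ℕ} (hm : m ≠ 0) (h : ∀ p : ℕ, p.Prime → ¬ Odd (m.factorization p)) :
    IsSquare m := by
  rw [← Nat.prod_factorization_pow_eq_self hm, Finsupp.prod]
  refine Finset.isSquare_prod _ fun p hp => ?_
  have h1 := Nat.not_odd_iff_even.mp (h p (Nat.prime_of_mem_primeFactors (by
    rwa [Nat.support_factorization] at hp)))
  exact h1.isSquare_pow p

theorem not_odd_of_sq {m p : ℕ} (h : IsSquare m) : ¬ Odd (m.factorization p) := by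
  obtain ⟨r, rfl⟩ := h
  by_cases hr : r = 0
  · subst hr; simp
  rw [Nat.factorization_mul hr hr, Finsupp.add_apply, Nat.not_odd_iff_even]
  exact ⟨_, rfl⟩

theorem sq_mod (m : ℕ) (h : IsSquare m) : m % 8 = 0 ∨ m % 8 = 1 ∨ m % 8 = 4 := by
  obtain ⟨r, rfl⟩ := h
  have : r % 8 = 0 ∨ r % 8 = 1 ∨ r % 8 = 2 ∨ r % 8 = 3 ∨ r % 8 = 4 ∨ r % 8 = 5 ∨ r % 8 = 6 ∨
    r % 8 = 7 := by omega
  rcases this with h | h | h | h | h | h | h | h <;> simp [Nat.mul_mod, h]

theorem badPrimes_empty_iff : {d | badPrimes d = ∅} = Pool.Agent.H81.SicDens.S := by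
  ext d
  have hiff : d ∈ Pool.Agent.H81.SicDens.S ↔ (d % 8 = 0 ∧ IsSquare (d + 1)) ∨ (d % 8 = 1 ∧ IsSquare d) ∨
    (d % 8 = 3 ∧ ∀ p : ℕ, p.Prime → Odd (d.factorization p) → p % 8 = 1 ∨ p % 8 = 3) ∨
    (d % 8 = 7 ∧ ∀ p : ℕ, p.Prime → Odd (d.factorization p) → p % 8 = 1 ∨ p % 8 = 7) := Iff.rfl
  rw [hiff]
  have h2 : ∀ p : ℕ, p.Prime → d % 2 = 1 → Odd (d.factorization p) → p % 2 = 1 := by
    intro p hp hd hodd
    rcases hp.eq_two_or_odd with rfl | h
    · rw [Nat.factorization_eq_zero_of_not_dvd (by omega)] at hodd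
      exact absurd hodd (by decide)
    · exact h
  constructor
  · intro h
    have hb : ∀ p : ℕ, p.Prime → ¬ ((d % 2 = 0 ∧ Odd ((d + 1).factorization p)) ∨
        (d % 4 = 1 ∧ Odd (d.factorization p)) ∨
        (d % 8 = 3 ∧ Odd (d.factorization p) ∧ (p % 8 = 5 ∨ p % 8 = 7)) ∨
        (d % 8 = 7 ∧ Odd (d.factorization p) ∧ (p % 8 = 3 ∨ p % 8 = 5))) := by
      intro p hp hcon
      have : p ∈ badPrimes d := ⟨hp, hcon⟩
      rw [Set.mem_ofPred_eq.mp h] at this
      exact this
    by_cases he : d % 2 = 0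
    · have h1 := sq_of_even (Nat.succ_ne_zero d) fun p hp h3 => hb p hp (Or.inl ⟨he, h3⟩)
      have := sq_mod _ h1
      exact Or.inl ⟨by omega, h1⟩
    by_cases h4 : d % 4 = 1
    · have h1 := sq_of_even (by omega : d ≠ 0) fun p hp h3 => hb p hp (Or.inr (Or.inl ⟨h4, h3⟩))
      have := sq_mod _ h1
      exact Or.inr (Or.inl ⟨by omega, h1⟩)
    by_cases h3 : d % 8 = 3
    · refine Or.inr (Or.inr (Or.inl ⟨h3, fun p hp hodd => ?_⟩))
      have h5 := h2 p hp (by omega) hodd
      have h6 : ¬ (p % 8 = 5 ∨ p % 8 = 7) := fun h7 =>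
        hb p hp (Or.inr (Or.inr (Or.inl ⟨h3, hodd, h7⟩)))
      omega
    · refine Or.inr (Or.inr (Or.inr ⟨by omega, fun p hp hodd => ?_⟩))
      have h5 := h2 p hp (by omega) hodd
      have h6 : ¬ (p % 8 = 3 ∨ p % 8 = 5) := fun h7 =>
        hb p hp (Or.inr (Or.inr (Or.inr ⟨by omega, hodd, h7⟩)))
      omega
  · intro h
    rw [Set.mem_ofPred_eq, Set.eq_empty_iff_forall_notMem]
    rintro p ⟨hp, hbad⟩
    rcases h with ⟨h8, hs⟩ | ⟨h8, hs⟩ | ⟨h8, hs⟩ | ⟨h8, hs⟩
    · rcases hbad with ⟨_, h⟩ | ⟨h, _⟩ | ⟨h, _⟩ | ⟨h, _⟩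
      · exact not_odd_of_sq hs h
      all_goals omega
    · rcases hbad with ⟨h, _⟩ | ⟨_, h⟩ | ⟨h, _⟩ | ⟨h, _⟩
      · omega
      · exact not_odd_of_sq hs h
      all_goals omega
    · rcases hbad with ⟨h, _⟩ | ⟨h, _⟩ | ⟨_, h, h'⟩ | ⟨h, _⟩
      · omega
      · omega
      · have := hs p hp h
        omega
      · omega
    · rcases hbad with ⟨h, _⟩ | ⟨h, _⟩ | ⟨h, _⟩ | ⟨_, h, h'⟩
      · omega
      · omega
      · omega
      · have := hs p hp h
        omega

open Pool.Agent.H13.SIC in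
theorem result :
    -- the local degrees of the real subfield are even at the primes of `badPrimes d`
    (∀ (d : ℕ) (x : Fin (d ^ 2) → EuclideanSpace ℂ (Fin d)), 3 ≤ d → IsMaximalETF d x →
      ∀ K : Subfield ℂ, HasTripleProducts K x → ∀ p ∈ badPrimes d,
      (∀ (_ : Fact p.Prime) (L : Type) [Field L] [Algebra ℚ_[p] L], FiniteDimensional ℚ_[p] L →
        Odd (finrank ℚ_[p] L) → IsEmpty (realSubfield K →+* L)) ∧
      (∀ (_ : NumberField (realSubfield K)) (P : Ideal (𝓞 (realSubfield K))), P.IsPrime →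
        (p : 𝓞 (realSubfield K)) ∈ P →
        Even (P.ramificationIdx ℤ * P.inertiaDeg ℤ) ∧ (d % 4 ≠ 3 → Even (P.ramificationIdx ℤ))) ∧
      (FiniteDimensional ℚ (realSubfield K) → Even (finrank ℚ (realSubfield K)))) ∧
    -- almost all dimensions have such primes
    Tendsto (fun X : ℕ => (({d | badPrimes d = ∅} ∩ Set.Iio X).ncard : ℝ) / X) atTop (nhds 0) ∧
    -- the conditions for a field `k` and an extension `L / k` of odd degree which contains the real
    -- subfield
    (∀ (d : ℕ) (x : Fin (d ^ 2) → EuclideanSpace ℂ (Fin d)), 3 ≤ d → IsMaximalETF d x →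
      ∀ K : Subfield ℂ, HasTripleProducts K x →
      ∀ (k L : Type) [Field k] [Field L] [Algebra k L], FiniteDimensional k L →
        Odd (finrank k L) → ∀ φ : realSubfield K →+* L,
      (d % 8 = 3 → ∃ a b : k, (d : k) = a ^ 2 + 2 * b ^ 2) ∧
      (d % 8 = 7 → ∃ a b : k, (d : k) = a ^ 2 - 2 * b ^ 2) ∧
      (d % 8 = 5 → ∀ (r : k) (f : realSubfield K) (ρ : ℝ), ρ ≠ 0 → (ρ : ℂ) * Complex.I ∈ K →
        (f : ℝ) = ρ ^ 2 → algebraMap k L r = φ f → ∃ a b : k, r = a ^ 2 + b ^ 2) ∧
      (d % 4 = 1 → IsSquare (d : k)) ∧ (d % 4 = 0 → IsSquare ((d + 1 : ℕ) : k))) := by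
  refine ⟨?_, ?_, ?_⟩
  · intro d x hd hx K hK p hp
    have hx' : IsMaxETF d x := hx
    have hbad : Bad d p := hp.2
    have hpf : Fact p.Prime := ⟨hp.1⟩
    refine ⟨?_, ?_, ?_⟩
    · intro _ L _ _ hfin hodd
      exact ⟨fun φ => local_embedding hd hx' K hK hbad L hodd φ⟩
    · intro _ P hP hpP
      refine ⟨?_, ?_⟩
      · by_contra hcon
        rw [Nat.not_even_iff_odd, Nat.odd_mul] at hcon
        exact local_number_field hd hx' K hK hbad P hP hpP hcon.1 fun _ => hcon.2
      · intro h4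
        by_contra hcon
        rw [Nat.not_even_iff_odd] at hcon
        exact local_number_field hd hx' K hK hbad P hP hpP hcon fun h => absurd h h4
    · intro hfin
      by_contra hcon
      rw [Nat.not_even_iff_odd] at hcon
      have h1 : d ∈ Pool.Agent.H81.SicDens.S := odd_degree hd hx' K hK hfin hcon
      rw [← badPrimes_empty_iff, Set.mem_ofPred_eq] at h1
      rw [h1] at hp
      exact hp
  · rw [badPrimes_empty_iff]
    exact Pool.Agent.H81.SicDens.dens Pool.Agent.H68.SicA.not_summable_inv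
  · intro d x hd hx K hK k L _ _ _ hfin hodd φ
    have hx' : IsMaxETF d x := hx
    have : CharZero L := charZero_of_injective_ringHom φ.injective
    have : CharZero k := (algebraMap k L).charZero
    have hdk : (d : k) ≠ 0 := by exact_mod_cast (by omega : d ≠ 0)
    obtain ⟨f1, f0, f3, f7⟩ := facts hd hx' K hK
    refine ⟨?_, ?_, ?_, ?_, ?_⟩
    · intro h
      obtain ⟨a, b, hab⟩ := f3 h
      refine Pool.Agent.H13.OddDeg.odd_norm hodd (2 : k) (d : k) hdk (φ a) (φ b) ?_
      have h2 : φ 2 = 2 := map_ofNat φ 2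
      rw [map_natCast, map_ofNat, ← map_natCast φ, hab, map_add, map_mul, map_pow, map_pow, h2]
    · intro h
      obtain ⟨a, b, hab⟩ := f7 h
      obtain ⟨u, v, huv⟩ := Pool.Agent.H13.OddDeg.odd_norm hodd (-2 : k) (d : k) hdk (φ a) (φ b) (by
        have h2 : φ 2 = 2 := map_ofNat φ 2
        rw [map_natCast, map_neg, map_ofNat, ← map_natCast φ, hab, map_sub, map_mul, map_pow,
          map_pow, h2]
        ring)
      exact ⟨u, v, by rw [huv]; ring⟩
    · intro h r f ρ hρ0 hρ hf hr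
      have hρ' := imag_cc hρ
      have hsq := sqrt_mem1 (by omega) (by omega) hx' (cc K) (cc_triple hK)
      have hδ : ρ ^ 2 ∈ Fr (cc K) := by
        rw [mem_Fr]
        have h2 : ((ρ ^ 2 : ℝ) : ℂ) = -(((ρ : ℂ) * Complex.I) ^ 2) := by
          rw [mul_pow, Complex.I_sq]; push_cast; ring
        rw [h2]
        exact (cc K).neg_mem ((cc K).pow_mem hρ' 2)
      obtain ⟨a, b, hab⟩ := main5 h hx' (cc K) (cc_conj K) (cc_triple hK)
        (by obtain ⟨u, hu⟩ := hsq; exact ⟨u, by rw [hu, sq]⟩) hρ0 hρ' ⟨ρ ^ 2, hδ⟩ rfl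
      have e : ∀ r, r ∈ Fr (cc K) → r ∈ Fr K := fun r hr => by rwa [Fr_cc] at hr
      have h3 := congrArg (Subtype.val : Fr (cc K) → ℝ) hab
      let a' : realSubfield K := ⟨a, e _ a.2⟩
      let b' : realSubfield K := ⟨b, e _ b.2⟩
      have h4 : f = a' ^ 2 + b' ^ 2 := Subtype.ext (by rw [hf]; simpa using h3)
      have hr0 : r ≠ 0 := by
        rintro rfl
        rw [map_zero] at hr
        have h5 : f = 0 := φ.injective (by rw [← hr, map_zero])
        rw [h5] at hf
        exact hρ0 (pow_eq_zero_iff two_ne_zero |>.mp hf.symm)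
      obtain ⟨u, v, huv⟩ := Pool.Agent.H13.OddDeg.odd_norm hodd (1 : k) r hr0 (φ a') (φ b') (by
        rw [map_one, one_mul, hr, h4, map_add, map_pow, map_pow])
      exact ⟨u, v, by rw [huv]; ring⟩
    · intro h
      obtain ⟨s, hs⟩ := f1 h
      refine sq_of_odd hodd ⟨φ s, ?_⟩
      rw [← map_natCast φ, hs, map_mul]
    · intro h
      obtain ⟨s, hs⟩ := f0 h
      refine sq_of_odd hodd ⟨φ s, ?_⟩
      rw [← map_natCast φ, hs, map_mul]

end Pool.Agent.Results.MP_d0f9e0_co.DegreeOfRealSubfield
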