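import Mathlib
import Pool.Agent.H52.SIC.Exact

set_option autoImplicit false

namespace Pool.Agent.Results.MP_d0f9e0_co.ExactlyTight

/-- Approximate maximal equiangular tight frames in every dimension. There are constants `c, C > 0`
such that every `ℂ^d`, `d ≥ 1`, contains exactly `d²` unit vectors `x_i` which form an exactly tight
frame, `∑ |⟨x_i, u⟩|² = d ‖u‖²`, and are nearly equiangular:
`|(d + 1) |⟨x_i, x_j⟩|² - 1| ≤ C d^(-c)` for all `i ≠ j`. -/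
theorem result : ∃ c C : ℝ, 0 < c ∧ 0 < C ∧ ∀ d : ℕ, 1 ≤ d →
    ∃ x : Fin (d ^ 2) → EuclideanSpace ℂ (Fin d),
      (∀ i, ‖x i‖ = 1) ∧
      (∀ u : EuclideanSpace ℂ (Fin d), ∑ i, ‖inner ℂ (x i) u‖ ^ 2 = d * ‖u‖ ^ 2) ∧
      (∀ i j, i ≠ j →
        |((d : ℝ) + 1) * ‖inner ℂ (x i) (x j)‖ ^ 2 - 1| ≤ C * (d : ℝ) ^ (-c)) :=
  Pool.Agent.H52.SIC.main

end Pool.Agent.Results.MP_d0f9e0_co.ExactlyTight
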