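import Mathlib
import Pool.Agent.H61.SIC.Mod

set_option autoImplicit false

namespace Pool.Agent.Results.MP_d0f9e0_co.FieldOfPhases

/-- The vectors `x i`, `i ∈ T`, are unit vectors of `ℂ^d` with the pairwise angle of a maximal
ETF: `|⟨x_i, x_j⟩| = 1/√(d+1)` for `i ≠ j` in `T`. (If `x` is a maximal ETF this holds for every
set `T` of indices.) -/
def IsPartial {ι : Type*} (d : ℕ) (x : ι → EuclideanSpace ℂ (Fin d)) (T : Finset ι) : Prop :=
  (∀ i ∈ T, ‖x i‖ = 1) ∧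
    ∀ i ∈ T, ∀ j ∈ T, i ≠ j → ‖inner ℂ (x i) (x j)‖ = 1 / Real.sqrt ((d : ℝ) + 1)

/-- The phase of three lines: the triple product `⟨x_i,x_j⟩⟨x_j,x_k⟩⟨x_k,x_i⟩` multiplied by
`√(d+1)³`, a complex number of modulus one. -/
noncomputable def phase {ι : Type*} {d : ℕ} (x : ι → EuclideanSpace ℂ (Fin d)) (i j k : ι) : ℂ :=
  ((Real.sqrt ((d : ℝ) + 1) : ℝ) : ℂ) ^ 3 *
    (inner ℂ (x i) (x j) * inner ℂ (x j) (x k) * inner ℂ (x k) (x i))

/-- The phases of the triples of distinct lines of `T`. -/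
def phases {ι : Type*} {d : ℕ} (x : ι → EuclideanSpace ℂ (Fin d)) (T : Finset ι) : Set ℂ :=
  {z | ∃ i ∈ T, ∃ j ∈ T, ∃ k ∈ T, i ≠ j ∧ j ≠ k ∧ k ≠ i ∧ z = phase x i j k}

open Pool.Agent.H47.SIC Pool.Agent.H61.SIC in
/-- Let `d ≥ 3` and let `T` be a set of `n` lines of a maximal ETF in `ℂ^d` (or only `n` lines of
`ℂ^d` with the same pairwise angle), and let `s = √(d+1)`.

(1) If `s` is not in the field generated by the phases of `T`, then `n ≤ 2d`, moreover
`n(n-d-2) ≤ (d+1)(2d-n)(2d-n-2)`, and `n < 2d - √(2d) + 1`.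

(2) Let `n ≥ d + 2` and `η = ±1`. Modulo every place of `ℂ` (every valuation ring of `ℂ`) at
which all phases are congruent to `η`, also `s` is congruent to `η`.

(3) Let `n ≥ d + 2`, let `p` be a prime and `η = ±1`, and let all phases be `η` times roots of
unity of order a power of `p`. Then `p ∣ d`; and if `p ≠ 2` or `n ≥ 2d - √(2d) + 1` then
`d + 1 = c²` for an integer `c ≥ 0` with `c ≡ η` modulo `p`.

(4) Let `n ≥ d(d+1)/2 + 2`, let `p` be a prime and let all phases be `2pᵃ`-th roots of unity.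
Then `p ∣ d` and `d + 1` is a square. -/
theorem result {ι : Type*} {d : ℕ} (hd : 3 ≤ d) (x : ι → EuclideanSpace ℂ (Fin d))
    (T : Finset ι) (hT : IsPartial d x T) :
    (((Real.sqrt ((d : ℝ) + 1) : ℝ) : ℂ) ∉ Subfield.closure (phases x T) →
      T.card ≤ 2 * d ∧
      (T.card : ℤ) * (T.card - d - 2) ≤ (d + 1) * ((2 * d - T.card) * (2 * d - T.card - 2)) ∧
      (T.card : ℝ) < 2 * d - Real.sqrt (2 * d) + 1) ∧
    (d + 2 ≤ T.card → ∀ η : ℤ, η = 1 ∨ η = -1 → ∀ V : ValuationSubring ℂ,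
      (∀ z ∈ phases x T, z - η ∈ V.nonunits) →
      ((Real.sqrt ((d : ℝ) + 1) : ℝ) : ℂ) - η ∈ V.nonunits) ∧
    (d + 2 ≤ T.card → ∀ η : ℤ, η = 1 ∨ η = -1 → ∀ p a : ℕ, p.Prime →
      (∀ z ∈ phases x T, ((η : ℂ) * z) ^ p ^ a = 1) →
      p ∣ d ∧ (p ≠ 2 ∨ 2 * (d : ℝ) - Real.sqrt (2 * d) + 1 ≤ T.card →
        ∃ c : ℕ, d + 1 = c ^ 2 ∧ (p : ℤ) ∣ (c : ℤ) - η)) ∧
    (d * (d + 1) / 2 + 2 ≤ T.card → ∀ p a : ℕ, p.Prime →
      (∀ z ∈ phases x T, z ^ (2 * p ^ a) = 1) → p ∣ d ∧ IsSquare (d + 1)) := by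
  classical
  let y : T → EuclideanSpace ℂ (Fin d) := fun i => x i
  have hy : IsSystem d y :=
    ⟨fun i => hT.1 i i.2, fun i j hij => hT.2 i i.2 j j.2 (fun h => hij (Subtype.ext h))⟩
  have hmem : ∀ i j k : T, i ≠ j → j ≠ k → k ≠ i → ph y i j k ∈ phases x T :=
    fun i j k hij hjk hki => ⟨i, i.2, j, j.2, k, k.2, fun h => hij (Subtype.ext h),
      fun h => hjk (Subtype.ext h), fun h => hki (Subtype.ext h), rfl⟩
  refine ⟨?_, ?_, ?_, ?_⟩
  · intro hs
    have h1 := field_bound hy (Subfield.closure (phases x T)) hs (fun i j k hij hjk hki =>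
      Subfield.subset_closure (hmem i j k hij hjk hki)) T.card (Fintype.card_coe T)
    exact ⟨h1.1, h1.2, sqrt_bound hd h1.1 h1.2⟩
  · intro hn η hη V hph
    have hη2 : (η : ℂ) * η = 1 := by
      rcases hη with rfl | rfl <;> push_cast <;> ring
    have hn' : d + 2 ≤ Fintype.card T := by rw [Fintype.card_coe]; exact hn
    obtain ⟨o⟩ : Nonempty T := Fintype.card_pos_iff.mp (by omega)
    have h1 := eta_congr hy hn' V o (η : ℂ) hη2 (sign_mem V η) (sq1 d) (rank_S_add_le hy o)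
      (fun j k h1 h2 h3 => by
        have h4 := mul_mem_nonunits (sign_mem V η) (hph _ (hmem o j k h1 h2 h3))
        have h5 : (η : ℂ) * (ph y o j k - η) = η * ph y o j k - 1 := by
          linear_combination -hη2
        rwa [h5] at h4)
    have h2 := mul_mem_nonunits (sign_mem V η) h1
    have h3 : (η : ℂ) * (η * sq1 d - 1) = ((Real.sqrt ((d : ℝ) + 1) : ℝ) : ℂ) - η := by
      change (η : ℂ) * (η * sq1 d - 1) = sq1 d - η
      linear_combination sq1 d * hη2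
    rwa [h3] at h2
  · intro hn η hη p a hp hph
    have hη2 : (η : ℂ) * η = 1 := by
      rcases hη with rfl | rfl <;> push_cast <;> ring
    have hn' : d + 2 ≤ Fintype.card T := by rw [Fintype.card_coe]; exact hn
    obtain ⟨V, hV⟩ := exists_val p hp
    refine ⟨(eta_sqrt hy hn' hp (η : ℂ) hη2 (a := a)
      (fun i j k h1 h2 h3 => hph _ (hmem i j k h1 h2 h3)) hV (sign_mem V η)).2, ?_⟩
    intro hp2
    exact eta_main hy hd hn' hp η hη (a := a) (fun i j k h1 h2 h3 => hph _ (hmem i j k h1 h2 h3))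
      (by rw [Fintype.card_coe]; exact hp2)
  · intro hn p a hp hph
    refine sq_main hy hd ?_ hp (a := a) (fun i j k h1 h2 h3 => hph _ (hmem i j k h1 h2 h3))
    rw [Fintype.card_coe, Nat.choose_two_right]
    have : (d + 1) * (d + 1 - 1) = d * (d + 1) := by
      rw [Nat.add_sub_cancel]; ring
    rw [this]
    exact hn

end Pool.Agent.Results.MP_d0f9e0_co.FieldOfPhases
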