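import Mathlib
import Pool.Agent.H13.ETF.Cyclo
import Pool.Agent.H13.ETF.Ext

set_option autoImplicit false

/-!
# The field of the triple products of a maximal equiangular tight frame is unramified outside `d`

Let `x` be a maximal ETF in `ℂ^d`, `d ≥ 3`, let `K` be a subfield of `ℂ` which contains all triple
products `⟨x_i,x_j⟩⟨x_j,x_k⟩⟨x_k,x_i⟩`, and `F = K ∩ ℝ`.

* Complex conjugation is in the inertia group of a valuation ring of `K` only if `d` is in its
  maximal ideal: `K / F` is unramified outside `d`. The same for prime ideals if `K` is a number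
  field. This holds for every set of more than `d(d+1)/2 + 1` lines at the angle of a maximal ETF.
* If `d ≡ 2 mod 4`, `K / F` is unramified everywhere, and `d + 1` has the value of a square at every
  valuation of `F`.
* If `iρ ∈ K`, `ρ ≠ 0` real, then `ρ²` has the value of a square at every valuation of `F` outside
  `d`, and at every valuation if `d ≡ 2 mod 4`.
* If all triple products are in the field of the roots of unity of `p`-power order, then `p ∣ d`,
  and `d` is not `2` modulo `4`.

Proof. Gauge the vectors such that the Gram matrix `G` has entries in `K`, and multiply by the cube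
of an element `w ∈ K` with `w w̄ = d + 1`. The entries `u_ij` then satisfy `u_ij ū_ij = 1` for
`i ≠ j` and `u_ii ū_ii = d + 1`, hence are integral at a place where conjugation is in the inertia
group, and modulo the place `u_ij² = u_ij ū_ij`. The matrix `(u_ij²)` has rank at most `d(d+1)/2`,
but is `d I + J` modulo the place. If `d ≡ 2 mod 4` then `√-(d+1) ∈ K` (the discriminant of the trace
form of the Hermitian operators), and if conjugation is in the inertia group of a place, then this
element and `d` are in its maximal ideal, a contradiction.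
-/

namespace Pool.Agent.Results.MP_d0f9e0_co.RamificationOutsideD

open NumberField IsDedekindDomain

/-- `x` is a family of `n` unit vectors of `ℂ^d` with `|⟨x_i, x_j⟩| = 1/√(d+1)` for `i ≠ j`; for
`n = d²` this is a maximal ETF. -/
def HasETFAngle {d n : ℕ} (x : Fin n → EuclideanSpace ℂ (Fin d)) : Prop :=
  (∀ i, ‖x i‖ = 1) ∧ ∀ i j, i ≠ j → ‖inner ℂ (x i) (x j)‖ = 1 / Real.sqrt ((d : ℝ) + 1)

/-- `K` contains the triple products of `x`. -/
def HasTripleProducts {d n : ℕ} (K : Subfield ℂ) (x : Fin n → EuclideanSpace ℂ (Fin d)) : Prop :=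
  ∀ i j k, inner ℂ (x i) (x j) * inner ℂ (x j) (x k) * inner ℂ (x k) (x i) ∈ K

/-- the real subfield `K ∩ ℝ`. -/
noncomputable abbrev realSubfield (K : Subfield ℂ) : Subfield ℝ := K.comap Complex.ofRealHom

/-- `K` is stable under complex conjugation, and complex conjugation is in the inertia group of
the valuation ring `A` of `K`, that is `ā - a` is in the maximal ideal of `A` for all `a ∈ A`. -/
def ConjInertial (K : Subfield ℂ) (A : ValuationSubring K) : Prop :=
  (∀ z ∈ K, (starRingEnd ℂ) z ∈ K) ∧
  ∀ a b : K, a ∈ A → (b : ℂ) = (starRingEnd ℂ) (a : ℂ) → b - a ∈ A.nonunits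

/-- `K` is stable under complex conjugation, and conjugation is in the inertia group of the prime
ideal `P` of the ring of integers of `K`. -/
def ConjInertialPrime (K : Subfield ℂ) [NumberField K] (P : HeightOneSpectrum (𝓞 K)) : Prop :=
  (∀ z ∈ K, (starRingEnd ℂ) z ∈ K) ∧
  ∀ a b : 𝓞 K, ((b : K) : ℂ) = (starRingEnd ℂ) ((a : K) : ℂ) → b - a ∈ P.asIdeal

/-- the element `f` of the real subfield has the value of a square at `B`. -/
def SquareValue {K : Subfield ℂ} (B : ValuationSubring (realSubfield K)) (f : realSubfield K) : Prop :=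
  ∃ g : realSubfield K, B.valuation f = B.valuation g ^ 2

/-- the field generated by the roots of unity of `p`-power order. -/
noncomputable def rootField (p : ℕ) : Subfield ℂ := Subfield.closure {z : ℂ | ∃ k, z ^ (p ^ k) = 1}

open Pool.Agent.H13.SIC in
theorem result :
    -- lines at the angle of a maximal ETF
    (∀ (d n : ℕ) (x : Fin n → EuclideanSpace ℂ (Fin d)), 1 ≤ d → d * (d + 1) + 2 < 2 * n →
      HasETFAngle x → ∀ K : Subfield ℂ, HasTripleProducts K x →
      (∀ A : ValuationSubring K, ConjInertial K A → (d : K) ∈ A.nonunits) ∧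
      (∀ _ : NumberField K, ∀ P : HeightOneSpectrum (𝓞 K), ConjInertialPrime K P →
        (d : 𝓞 K) ∈ P.asIdeal) ∧
      (∀ (B : ValuationSubring (realSubfield K)) (f : realSubfield K) (ρ : ℝ), (f : ℝ) = ρ ^ 2 →
        (ρ : ℂ) * Complex.I ∈ K → ¬ SquareValue B f → (d : realSubfield K) ∈ B.nonunits) ∧
      (∀ p : ℕ, p.Prime → K ≤ rootField p → p ∣ d)) ∧
    -- maximal ETFs with `d ≡ 2 mod 4`
    (∀ (d : ℕ) (x : Fin (d ^ 2) → EuclideanSpace ℂ (Fin d)), 3 ≤ d → d % 4 = 2 → HasETFAngle x →
      ∀ K : Subfield ℂ, HasTripleProducts K x →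
      (∀ A : ValuationSubring K, ¬ ConjInertial K A) ∧
      (∀ _ : NumberField K, ∀ P : HeightOneSpectrum (𝓞 K), ¬ ConjInertialPrime K P) ∧
      (∀ (B : ValuationSubring (realSubfield K)) (f : realSubfield K) (ρ : ℝ), (f : ℝ) = ρ ^ 2 →
        (ρ : ℂ) * Complex.I ∈ K → SquareValue B f) ∧
      (∀ B : ValuationSubring (realSubfield K), SquareValue B ((d + 1 : ℕ) : realSubfield K)) ∧
      (∀ p : ℕ, p.Prime → ¬ K ≤ rootField p)) := by
  refine ⟨?_, ?_⟩
  · intro d n x hd hn hx K hK
    have hx' : IsAngle d n x := hx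
    have hn' : d ^ 2 + d + 2 < 2 * n := by nlinarith
    refine ⟨?_, ?_, ?_, ?_⟩
    · intro A hA
      rw [ValuationSubring.mem_nonunits_iff]
      refine not_inertia_lines hd hn' hx' K
        (fun a => ⟨(starRingEnd ℂ) (a : ℂ), hA.1 _ a.2⟩) (fun _ => rfl) hK A.valuation ?_
      intro a ha
      rw [← ValuationSubring.mem_nonunits_iff]
      exact hA.2 a _ ((A.valuation_le_one_iff a).mp ha) rfl
    · intro _ P hP
      have hv := inertia_of_prime K hP.1 (fun a => ⟨(starRingEnd ℂ) (a : ℂ), hP.1 _ a.2⟩)
        (fun _ => rfl) P hP.2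
      have h1 := not_inertia_lines hd hn' hx' K
        (fun a => ⟨(starRingEnd ℂ) (a : ℂ), hP.1 _ a.2⟩) (fun _ => rfl) hK (P.valuation K) hv
      rw [← P.valuation_lt_one_iff_mem (K := K)]
      simpa using h1
    · intro B f ρ hf hρ hB
      have hρ0 : ρ ≠ 0 := by
        rintro rfl
        apply hB
        refine ⟨0, ?_⟩
        have : f = 0 := Subtype.ext (by rw [hf]; simp)
        rw [this]; simp
      have e := Fr_cc K
      have h1 : ∀ B : ValuationSubring (Fr (cc K)), ∀ f : Fr (cc K), (f : ℝ) = ρ ^ 2 →
          (¬ ∃ g : Fr (cc K), B.valuation f = B.valuation g ^ 2) → (d : Fr (cc K)) ∈ B.nonunits := by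
        intro B f hf hB
        push Not at hB
        obtain ⟨V, hV, hVn⟩ := exists_ext (cc K) (cc_conj K) hρ0 (imag_cc hρ) f hf B.valuation hB
        have h2 := not_inertia_lines hd hn' hx' (cc K)
          (fun a => ⟨(starRingEnd ℂ) (a : ℂ), cc_conj K _ a.2⟩) (fun _ => rfl) (cc_triple_lines hK) V
          (hV _ (fun _ => rfl))
        rw [hVn] at h2
        rw [ValuationSubring.mem_nonunits_iff]
        by_contra hcon
        push Not at hcon
        exact absurd h2 (not_lt.mpr (one_le_pow₀ hcon))
      rw [e] at h1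
      exact h1 B f hf hB
    · intro p hp hKp
      exact rootField_lines hp hd hn' hx' (fun i j k => hKp (hK i j k))
  · intro d x hd hd4 hx K hK
    have hx' : IsMaxETF d x := hx
    have e := Fr_cc K
    refine ⟨?_, ?_, ?_, ?_, ?_⟩
    · intro A hA
      refine no_inertia2 hd hd4 hx' K (fun a => ⟨(starRingEnd ℂ) (a : ℂ), hA.1 _ a.2⟩)
        (fun _ => rfl) hK A.valuation ?_
      intro a ha
      rw [← ValuationSubring.mem_nonunits_iff]
      exact hA.2 a _ ((A.valuation_le_one_iff a).mp ha) rfl
    · intro _ P hP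
      have hv := inertia_of_prime K hP.1 (fun a => ⟨(starRingEnd ℂ) (a : ℂ), hP.1 _ a.2⟩)
        (fun _ => rfl) P hP.2
      exact no_inertia2 hd hd4 hx' K (fun a => ⟨(starRingEnd ℂ) (a : ℂ), hP.1 _ a.2⟩)
        (fun _ => rfl) hK (P.valuation K) hv
    · intro B f ρ hf hρ
      have h1 : ∀ B : ValuationSubring (Fr (cc K)), ∀ f : Fr (cc K), (f : ℝ) = ρ ^ 2 →
          ∃ g : Fr (cc K), B.valuation f = B.valuation g ^ 2 := by
        intro B f hf
        by_contra hB
        push Not at hB
        have hρ0 : ρ ≠ 0 := by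
          rintro rfl
          apply hB 0
          have : f = 0 := Subtype.ext (by rw [hf]; simp)
          rw [this]; simp
        obtain ⟨V, hV, hVn⟩ := exists_ext (cc K) (cc_conj K) hρ0 (imag_cc hρ) f hf B.valuation hB
        exact no_inertia2 hd hd4 hx' (cc K)
          (fun a => ⟨(starRingEnd ℂ) (a : ℂ), cc_conj K _ a.2⟩) (fun _ => rfl) (cc_triple hK) V
          (hV _ (fun _ => rfl))
      rw [e] at h1
      exact h1 B f hf
    · intro B
      have h1 := fun (v : ValuationSubring (Fr (cc K))) =>
        square_val hd hd4 hx' (cc K) (cc_conj K) (cc_triple hK) v.valuation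
      rw [e] at h1
      exact h1 B
    · intro p hp hKp
      exact rootField_two hp hd hd4 hx' (fun i j k => hKp (hK i j k))

end Pool.Agent.Results.MP_d0f9e0_co.RamificationOutsideD
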